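import Pool.Agent.Run7.h608.TK.ALL

/-!
# Almost every level set of every generalized Takagi function is finite

Q1 of the page MP_cc494f_an (a question of Allaart), positive answer. For each `n` let
`ω n` be a function with values `1`, `-1` on `[0,1]` which is constant on each dyadic interval
`[j/2^n, (j+1)/2^n)`, `j < 2^n`. Then for Lebesgue almost every `y` the set of the `x` in `[0,1]` with
`∑ ω n x * dist (2^n x, ℤ) / 2^n = y` is finite (the distance from `t` to the integers is
`|t - round t|`).

The proof is by contradiction and uses an extremal argument. If the assertion is false for some member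
of the class, then by Lebesgue differentiation and compactness there is a member whose occupation
measure has a bounded density; let `D0` be the least possible bound. For an extremal member the
copies of the function over the dyadic intervals of slope zero are extremal as well, and they already
use up the density near a part of the cell next to their base line, so the chords which cross this cell
cannot be steep (up to a small weight). But typical points have about `√n` chords over the cell of
their next interval of slope zero, and the steep ones among them are rare by a counting argument.
-/

set_option autoImplicit false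

open MeasureTheory Set

namespace Pool.Agent.Results.MP_cc494f_an.AlmostEveryLevelSetFinite

/-- Almost every level set of every generalized Takagi function (class `T_v`) is finite. -/
theorem result (ω : ℕ → ℝ → ℝ)
    (h1 : ∀ n x, x ∈ Icc (0:ℝ) 1 → ω n x = 1 ∨ ω n x = -1)
    (h2 : ∀ (n j : ℕ), j < 2 ^ n → ∀ x ∈ Ico ((j:ℝ) / 2 ^ n) (((j:ℝ) + 1) / 2 ^ n),
      ω n x = ω n ((j:ℝ) / 2 ^ n)) :
    ∀ᵐ y ∂(volume : Measure ℝ), {x : ℝ | x ∈ Icc (0:ℝ) 1 ∧
      ∑' n : ℕ, ω n x * |2 ^ n * x - round ((2:ℝ) ^ n * x)| / 2 ^ n = y}.Finite :=
  Run7.h608.TK.res Run7.h608.TK.t_ALL ω h1 h2

end Pool.Agent.Results.MP_cc494f_an.AlmostEveryLevelSetFinite
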